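import Pool.Agent.Q15.PA.Stm

/-!
# Project PA, job ID: reduction to the integral case
-/

set_option autoImplicit false

namespace Pool.Agent.Q277.PA.ID

open Pool.Agent.Q15.PA

variable {d : ℕ}

theorem fl (ψ : ℝ →ₗ[ℚ] ℚ) (F : Finset ℝ) (h1 : ∀ x ∈ F, ∃ n : ℤ, ψ x = n)
    (h2 : ∀ x ∈ F, ∀ y ∈ F, x < y → ψ x < ψ y) {b t : ℝ} (hb : b ∈ F) (ht : t ∈ F) (hbt : b ≤ t) :
    ((⌊ψ t - ψ b⌋₊ : ℕ) : ℚ) = ψ t - ψ b := by
  obtain ⟨n, hn⟩ := h1 t ht
  obtain ⟨k, hk⟩ := h1 b hb
  have h3 : ψ b ≤ ψ t := by
    rcases hbt.eq_or_lt with h | h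
    · rw [h]
    · exact (h2 b hb t ht h).le
  rw [hn, hk] at h3 ⊢
  have h4 : k ≤ n := by exact_mod_cast h3
  obtain ⟨j, hj⟩ := Int.le.dest h4
  have h5 : (n : ℚ) - k = (j : ℚ) := by
    rw [← hj]; push_cast; ring
  rw [h5, Nat.floor_natCast]

theorem le_iff (ψ : ℝ →ₗ[ℚ] ℚ) (F : Finset ℝ)
    (h2 : ∀ x ∈ F, ∀ y ∈ F, x < y → ψ x < ψ y) {x y : ℝ} (hx : x ∈ F) (hy : y ∈ F) :
    ψ x ≤ ψ y ↔ x ≤ y := by
  constructor
  · intro h
    by_contra hcon
    push Not at hcon
    exact absurd (h2 y hy x hx hcon) (not_lt.2 h)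
  · intro h
    rcases h.eq_or_lt with h | h
    · rw [h]
    · exact (h2 x hx y hy h).le

theorem sum_shift (N : V d →₀ ℝ) (W : Finset (V d)) (φ φ' : V d → V d) (h1 : ∀ v, φ' (φ v) = v)
    (h2 : ∀ w, φ (φ' w) = w) (hW : ∀ v ∈ N.support, φ v ∈ W) (g : V d → ℝ) :
    ∑ w ∈ W, g w * N (φ' w) = ∑ v ∈ N.support, g (φ v) * N v := by
  classical
  have e1 : ∑ v ∈ N.support, g (φ v) * N v = ∑ w ∈ N.support.image φ, g w * N (φ' w) := by
    rw [Finset.sum_image]
    · exact Finset.sum_congr rfl fun v _ => by rw [h1]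
    · intro v _ w _ h
      rw [← h1 v, ← h1 w]
      exact congrArg φ' h
  rw [e1]
  symm
  refine Finset.sum_subset ?_ ?_
  · intro w hw
    obtain ⟨v, hv, rfl⟩ := Finset.mem_image.1 hw
    exact hW v hv
  · intro w _ hw
    have h3 : N (φ' w) = 0 := by
      by_contra hne
      exact hw (Finset.mem_image.2 ⟨φ' w, Finsupp.mem_support_iff.2 hne, h2 w⟩)
    rw [h3, mul_zero]

/-- `∑ N_v X^(e v)` -/
noncomputable def pol (A : Finset (V d)) (c : V d → ℝ) (e : V d → Fin d → ℕ) : MvPolynomial (Fin d) ℝ :=
  ∑ v ∈ A, MvPolynomial.monomial (Finsupp.equivFunOnFinite.symm (e v)) (c v)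

open Classical in
theorem coeff_pol (A : Finset (V d)) (c : V d → ℝ) (e : V d → Fin d → ℕ) (a : Fin d →₀ ℕ) :
    (pol A c e).coeff a = ∑ v ∈ A, if Finsupp.equivFunOnFinite.symm (e v) = a then c v else 0 := by
  rw [pol, MvPolynomial.coeff_sum]
  exact Finset.sum_congr rfl fun v _ => by rw [MvPolynomial.coeff_monomial]

open Classical in
theorem cumZ_pol (A : Finset (V d)) (c : V d → ℝ) (e : V d → Fin d → ℕ) (a : Fin d →₀ ℕ) :
    cumZ (pol A c e) a = ∑ v ∈ A, if ∀ i, e v i ≤ a i then c v else 0 := by
  rw [cumZ]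
  simp only [coeff_pol]
  rw [Finset.sum_comm]
  refine Finset.sum_congr rfl fun v _ => ?_
  rw [Finset.sum_ite_eq]
  by_cases h : ∀ i, e v i ≤ a i
  · rw [if_pos h, if_pos]
    rw [Finset.mem_Iic]
    exact h
  · rw [if_neg h, if_neg]
    rw [Finset.mem_Iic]
    exact h

open Classical in
theorem cum_eq (N : V d →₀ ℝ) (x : V d) : cum N x = ∑ v ∈ N.support, if v ≤ x then N v else 0 := by
  unfold cum
  rw [Finsupp.sum]

theorem aeval_pol (A : Finset (V d)) (c : V d → ℝ) (e : V d → Fin d → ℕ) (m : Fin d → ℕ) :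
    MvPolynomial.aeval (fun i => (MvPolynomial.X i : MvPolynomial (Fin d) ℝ) ^ m i) (pol A c e) =
      pol A c (fun v i => m i * e v i) := by
  rw [pol, pol, map_sum]
  refine Finset.sum_congr rfl fun v _ => ?_
  rw [MvPolynomial.aeval_monomial, MvPolynomial.monomial_eq, Finsupp.prod_fintype _ _ (fun i => by rw [pow_zero]),
    Finsupp.prod_fintype _ _ (fun i => by rw [pow_zero]), MvPolynomial.algebraMap_eq]
  refine congrArg (fun t => MvPolynomial.C (c v) * t) ?_
  refine Finset.prod_congr rfl fun i _ => ?_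
  rw [← pow_mul]
  rfl

open Classical in
theorem coeff_mul_pol (A B : Finset (V d)) (c c' : V d → ℝ) (e e' : V d → Fin d → ℕ) (a : Fin d →₀ ℕ) :
    (pol A c e * pol B c' e').coeff a =
      ∑ s ∈ A, ∑ v ∈ B, if ∀ i, e s i + e' v i = a i then c s * c' v else 0 := by
  rw [pol, pol, Finset.sum_mul_sum, MvPolynomial.coeff_sum]
  refine Finset.sum_congr rfl fun s _ => ?_
  rw [MvPolynomial.coeff_sum]
  refine Finset.sum_congr rfl fun v _ => ?_
  rw [MvPolynomial.monomial_mul, MvPolynomial.coeff_monomial]
  by_cases h : ∀ i, e s i + e' v i = a i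
  · rw [if_pos h, if_pos]
    ext i
    exact h i
  · rw [if_neg h, if_neg]
    intro hh
    exact h fun i => DFunLike.congr_fun hh i

theorem crn_mem {lo hi : V d} (T : Set (Fin d)) [DecidablePred (· ∈ T)] :
    crn lo hi T = fun i => if i ∈ T then hi i else lo i := by
  unfold crn
  funext i
  by_cases h : i ∈ T
  · rw [if_pos h, if_pos h]
  · rw [if_neg h, if_neg h]

theorem id : S_ID := by
  classical
  intro hNAT hHOM d N S μ lo hi lo' hi' hG hE hC hC'
  obtain ⟨hlohi, hmu, hm⟩ := hNAT d N S μ lo hi lo' hi' hG hE hC hC'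
  obtain ⟨hN0, hz1, R, hR⟩ := hG
  obtain ⟨hSne, hμ1, heq⟩ := hE
  obtain ⟨hbd, hcrn⟩ := hC
  obtain ⟨hbd', hcrn'⟩ := hC'
  choose m hm2 hmμ using hm
  -- the corners
  have hlo : lo ∈ N.support := by
    have := hcrn ∅
    rw [crn_mem] at this
    simpa using this
  have hhi : ∀ i, (fun j => if j = i then hi j else lo j) ∈ N.support := by
    intro i
    have := hcrn {i}
    rw [crn_mem] at this
    simpa using this
  have hlo' : lo' ∈ S := by
    have := hcrn' ∅
    rw [crn_mem] at this
    simpa using this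
  -- the homomorphisms
  set F : Fin d → Finset ℝ := fun i => N.support.image (fun v => v i) ∪ S.image (fun v => v i) with hF
  choose ψ hψ1 hψ2 using fun i => hHOM (F i)
  have hFN : ∀ i, ∀ v ∈ N.support, v i ∈ F i := fun i v hv =>
    Finset.mem_union_left _ (Finset.mem_image.2 ⟨v, hv, rfl⟩)
  have hFS : ∀ i, ∀ v ∈ S, v i ∈ F i := fun i v hv =>
    Finset.mem_union_right _ (Finset.mem_image.2 ⟨v, hv, rfl⟩)
  have hFhi : ∀ i, hi i ∈ F i := by
    intro i
    have := hFN i _ (hhi i)
    simpa using this
  set e : V d → Fin d → ℕ := fun v i => ⌊ψ i (v i) - ψ i (lo i)⌋₊ with he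
  set f : V d → Fin d → ℕ := fun v i => ⌊ψ i (v i) - ψ i (lo' i)⌋₊ with hf
  have hee : ∀ v ∈ N.support, ∀ i, ((e v i : ℕ) : ℚ) = ψ i (v i) - ψ i (lo i) := fun v hv i =>
    fl (ψ i) (F i) (hψ1 i) (hψ2 i) (hFN i lo hlo) (hFN i v hv) ((hbd v hv).1 i)
  have hff : ∀ v ∈ S, ∀ i, ((f v i : ℕ) : ℚ) = ψ i (v i) - ψ i (lo' i) := fun v hv i =>
    fl (ψ i) (F i) (hψ1 i) (hψ2 i) (hFS i lo' hlo') (hFS i v hv) ((hbd' v hv).1 i)
  have hele : ∀ v ∈ N.support, ∀ w ∈ N.support, ∀ i, e v i ≤ e w i ↔ v i ≤ w i := by
    intro v hv w hw i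
    rw [← le_iff (ψ i) (F i) (hψ2 i) (hFN i v hv) (hFN i w hw), ← Nat.cast_le (α := ℚ), hee v hv, hee w hw]
    exact sub_le_sub_iff_right _
  set N' : MvPolynomial (Fin d) ℝ := pol N.support N e with hN'
  set T' : MvPolynomial (Fin d) ℝ := pol S (fun _ => 1) f with hT'
  -- the maximal coordinates below a bound
  have hX : ∀ a : Fin d → ℕ, ∃ x : V d, (∀ v ∈ N.support, ∀ i, v i ≤ x i ↔ e v i ≤ a i) ∧ lo ≤ x := by
    intro a
    have h1 : ∀ i, ∃ w ∈ N.support, e w i ≤ a i ∧ ∀ v ∈ N.support, e v i ≤ a i → v i ≤ w i := by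
      intro i
      have hne : (N.support.filter fun w => e w i ≤ a i).Nonempty := by
        refine ⟨lo, Finset.mem_filter.2 ⟨hlo, ?_⟩⟩
        rw [he]
        simp only
        rw [sub_self, Nat.floor_zero]
        exact Nat.zero_le _
      obtain ⟨w, hw, hwmax⟩ := Finset.exists_max_image _ (fun w : V d => w i) hne
      rw [Finset.mem_filter] at hw
      exact ⟨w, hw.1, hw.2, fun v hv hva => hwmax v (Finset.mem_filter.2 ⟨hv, hva⟩)⟩
    choose w hw1 hw2 hw3 using h1
    refine ⟨fun i => w i i, fun v hv i => ⟨fun h => ?_, fun h => hw3 i v hv h⟩, fun i => (hbd _ (hw1 i)).1 i⟩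
    exact ((hele v hv (w i) (hw1 i) i).2 h).trans (hw2 i)
  have hcz : ∀ (a : Fin d →₀ ℕ) (x : V d), (∀ v ∈ N.support, v ≤ x ↔ ∀ i, e v i ≤ a i) →
      cumZ N' a = cum N x := by
    intro a x hx
    rw [hN', cumZ_pol, cum_eq]
    refine Finset.sum_congr rfl fun v hv => ?_
    by_cases h : v ≤ x
    · rw [if_pos ((hx v hv).1 h), if_pos h]
    · rw [if_neg (fun hh => h ((hx v hv).2 hh)), if_neg h]
  have hzo : ∀ a, cumZ N' a = 0 ∨ cumZ N' a = 1 := by
    intro a
    obtain ⟨x, hx, -⟩ := hX a
    rw [hcz a x (fun v hv => ⟨fun h i => (hx v hv i).1 (h i), fun h i => (hx v hv i).2 (h i)⟩)]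
    exact hz1 x
  -- the constant coefficient
  have helo : ∀ i, e lo i = 0 := by
    intro i
    rw [he]
    simp only
    rw [sub_self, Nat.floor_zero]
  have hone : N'.coeff 0 = 1 := by
    have h1 : cumZ N' 0 = N'.coeff 0 := by
      rw [cumZ]
      have : (Finset.Iic (0 : Fin d →₀ ℕ)) = {0} := by
        ext b
        rw [Finset.mem_Iic, Finset.mem_singleton]
        exact nonpos_iff_eq_zero
      rw [this, Finset.sum_singleton]
    have h2 : cumZ N' 0 = N lo := by
      rw [hN', cumZ_pol, Finset.sum_eq_single_of_mem lo hlo]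
      · rw [if_pos]
        intro i
        rw [helo i]
        exact Nat.zero_le _
      · intro v hv hvlo
        rw [if_neg]
        intro hh
        apply hvlo
        funext i
        have h3 : e v i ≤ e lo i := by rw [helo i]; exact hh i
        exact le_antisymm ((hele v hv lo hlo i).1 h3) ((hbd v hv).1 i)
    rcases hzo 0 with h | h
    · exfalso
      rw [h2] at h
      exact (Finsupp.mem_support_iff.1 hlo) h
    · rw [← h1, h]
  -- the equation
  have hmain : T' * N' = MvPolynomial.aeval
      (fun i => (MvPolynomial.X i : MvPolynomial (Fin d) ℝ) ^ m i) N' := by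
    rw [hN', aeval_pol]
    ext a
    rw [hT', coeff_mul_pol, coeff_pol]
    have hμ0 : ∀ i, μ i ≠ 0 := fun i => by have := hμ1 i; linarith
    set P : V d → Prop := fun w => ∀ i, ψ i (w i) - m i * ψ i (lo i) = a i with hP
    set g : V d → ℝ := fun w => if P w then 1 else 0 with hg
    have hlin : ∀ i (k : ℕ) (t : ℝ), ψ i ((k : ℝ) * t) = k * ψ i t := by
      intro i k t
      have h1 : (k : ℝ) * t = (k : ℚ) • t := by
        rw [Rat.smul_def]
        push_cast
        ring
      rw [h1, map_smul, smul_eq_mul]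
    have hlo'ψ : ∀ i, ψ i (lo' i) = ((m i : ℚ) - 1) * ψ i (lo i) := by
      intro i
      rw [(hmu i).1, hmμ i, sub_mul, one_mul, map_sub, hlin]
      ring
    -- the conditions
    have hc1 : ∀ s ∈ S, ∀ v ∈ N.support, ((∀ i, f s i + e v i = a i) ↔ P (s + v)) := by
      intro s hs v hv
      refine forall_congr' fun i => ?_
      rw [← Nat.cast_inj (R := ℚ), Nat.cast_add, hff s hs, hee v hv, hlo'ψ, Pi.add_apply, map_add]
      constructor
      · intro h; rw [← h]; ring
      · intro h; rw [← h]; ring
    have hc2 : ∀ v ∈ N.support, ((Finsupp.equivFunOnFinite.symm (fun i => m i * e v i) = a) ↔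
        P (fun i => μ i * v i)) := by
      intro v hv
      rw [DFunLike.ext_iff]
      refine forall_congr' fun i => ?_
      rw [Finsupp.equivFunOnFinite_symm_apply_apply, ← Nat.cast_inj (R := ℚ), Nat.cast_mul, hee v hv]
      simp only
      rw [hmμ i, hlin]
      constructor
      · intro h; rw [← h]; ring
      · intro h; rw [← h]; ring
    set W : Finset (V d) := (S ×ˢ N.support).image (fun q => q.1 + q.2) ∪
      N.support.image (fun v i => μ i * v i) with hW
    have e1 : ∀ s ∈ S, ∑ v ∈ N.support, (if ∀ i, f s i + e v i = a i then (1 : ℝ) * N v else 0) =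
        ∑ w ∈ W, g w * N (w - s) := by
      intro s hs
      rw [sum_shift N W (fun v => s + v) (fun w => w - s) (fun v => by rw [add_sub_cancel_left])
        (fun w => by rw [add_sub_cancel])
        (fun v hv => Finset.mem_union_left _ (Finset.mem_image.2 ⟨(s, v), Finset.mem_product.2 ⟨hs, hv⟩, rfl⟩)) g]
      refine Finset.sum_congr rfl fun v hv => ?_
      rw [hg]
      simp only
      by_cases h : P (s + v)
      · rw [if_pos ((hc1 s hs v hv).2 h), if_pos h]
      · rw [if_neg (fun hh => h ((hc1 s hs v hv).1 hh)), if_neg h, zero_mul]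
    have e2 : ∑ v ∈ N.support, (if Finsupp.equivFunOnFinite.symm (fun i => m i * e v i) = a then N v else 0) =
        ∑ w ∈ W, g w * N (fun i => w i / μ i) := by
      rw [sum_shift N W (fun v i => μ i * v i) (fun w i => w i / μ i)
        (fun v => by funext i; rw [mul_div_cancel_left₀ _ (hμ0 i)])
        (fun w => by funext i; rw [mul_div_cancel₀ _ (hμ0 i)])
        (fun v hv => Finset.mem_union_right _ (Finset.mem_image.2 ⟨v, hv, rfl⟩)) g]
      refine Finset.sum_congr rfl fun v hv => ?_
      rw [hg]
      simp only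
      by_cases h : P (fun i => μ i * v i)
      · rw [if_pos ((hc2 v hv).2 h), if_pos h, one_mul]
      · rw [if_neg (fun hh => h ((hc2 v hv).1 hh)), if_neg h, zero_mul]
    rw [Finset.sum_congr rfl e1, e2, Finset.sum_comm]
    refine Finset.sum_congr rfl fun w _ => ?_
    rw [← Finset.mul_sum, heq w]
  -- the function `κ`
  set κ : Fin d → ℝ → ℕ := fun i t => (N.support.filter fun v => v i ≤ t).sup (fun v => e v i) with hκ
  have hκi : ∀ i (t : ℝ), lo i ≤ t → ∀ v ∈ N.support, (v i ≤ t ↔ e v i ≤ κ i t) := by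
    intro i t ht v hv
    constructor
    · intro h
      exact Finset.le_sup (f := fun v : V d => e v i) (Finset.mem_filter.2 ⟨hv, h⟩)
    · intro h
      have hne : (N.support.filter fun v : V d => v i ≤ t).Nonempty := ⟨lo, Finset.mem_filter.2 ⟨hlo, ht⟩⟩
      obtain ⟨w, hw, hwe⟩ := Finset.exists_mem_eq_sup _ hne (fun v : V d => e v i)
      rw [Finset.mem_filter] at hw
      have h1 : e v i ≤ e w i := by
        rw [← hwe]
        exact h
      exact ((hele v hv w hw.1 i).1 h1).trans hw.2
  refine ⟨N', T', m, κ, ⟨hm2, ?_, hmain, hone, hzo⟩, ?_, ?_⟩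
  · intro a
    refine ⟨(S.filter fun s => Finsupp.equivFunOnFinite.symm (f s) = a).card, ?_⟩
    rw [hT', coeff_pol, Finset.card_filter]
    push_cast
    rfl
  · intro x hx
    symm
    apply hcz
    intro v hv
    constructor
    · intro h i
      exact (hκi i (x i) (hx i) v hv).1 (h i)
    · intro h i
      exact (hκi i (x i) (hx i) v hv).2 (h i)
  · intro i
    set c : V d := fun j => if j = i then hi j else lo j with hc
    have hcm : c ∈ N.support := hhi i
    have hci : c i = hi i := by rw [hc]; simp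
    have hcj : ∀ j, j ≠ i → c j = lo j := fun j hj => by rw [hc]; simp [hj]
    have hH : 0 < e c i := by
      by_contra hcon
      have h1 : e c i ≤ e lo i := by omega
      have h2 := (hele c hcm lo hlo i).1 h1
      rw [hci] at h2
      exact absurd (hlohi i) (not_lt.2 h2)
    -- a large coordinate gives zero
    have hbig : ∀ a : Fin d →₀ ℕ, e c i ≤ a i → cumZ N' a = 0 := by
      intro a ha
      obtain ⟨x, hx, -⟩ := hX a
      set x' : V d := fun j => if j = i then max (hi i) (R + 1) else x j with hx'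
      have hx'i : x' i = max (hi i) (R + 1) := by rw [hx']; simp
      have hx'j : ∀ j, j ≠ i → x' j = x j := fun j hj => by rw [hx']; simp [hj]
      rw [hcz a x']
      · apply hR x' i
        rw [hx'i]
        exact lt_of_lt_of_le (by linarith) (le_max_right _ _)
      · intro v hv
        constructor
        · intro h j
          by_cases hj : j = i
          · subst hj
            refine le_trans ?_ ha
            rw [hele v hv c hcm, hci]
            exact (hbd v hv).2 j
          · rw [← hx v hv j, ← hx'j j hj]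
            exact h j
        · intro h j
          by_cases hj : j = i
          · subst hj
            rw [hx'i]
            exact ((hbd v hv).2 j).trans (le_max_left _ _)
          · rw [hx'j j hj, hx v hv j]
            exact h j
    refine ⟨e c i - 1, ?_, ?_⟩
    · have h1 : cumZ N' (Finsupp.single i (e c i)) = 0 := hbig _ (by rw [Finsupp.single_eq_same])
      have h2 : cumZ N' (Finsupp.single i (e c i)) = cumZ N' (Finsupp.single i (e c i - 1)) + N c := by
        rw [hN', cumZ_pol, cumZ_pol, ← Finset.add_sum_erase _ _ hcm, ← Finset.add_sum_erase _ _ hcm]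
        rw [if_pos, if_neg, zero_add, add_comm]
        · refine congrArg (fun t => t + N c) ?_
          refine Finset.sum_congr rfl fun v hv => ?_
          rw [Finset.mem_erase] at hv
          by_cases h : ∀ j, e v j ≤ (Finsupp.single i (e c i - 1)) j
          · rw [if_pos h, if_pos]
            intro j
            refine (h j).trans ?_
            by_cases hj : j = i
            · subst hj
              rw [Finsupp.single_eq_same, Finsupp.single_eq_same]
              exact Nat.sub_le _ _
            · rw [Finsupp.single_eq_of_ne hj, Finsupp.single_eq_of_ne hj]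
          · rw [if_neg h, if_neg]
            intro hh
            apply hv.1
            -- then `v = c`
            have h3 : ∀ j, j ≠ i → v j = lo j := by
              intro j hj
              have h4 := hh j
              rw [Finsupp.single_eq_of_ne hj, ← helo j] at h4
              exact le_antisymm ((hele v hv.2 lo hlo j).1 h4) ((hbd v hv.2).1 j)
            have h5 : v i = hi i := by
              by_contra hne
              apply h
              intro j
              by_cases hj : j = i
              · subst hj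
                rw [Finsupp.single_eq_same]
                have h6 : ¬ e c j ≤ e v j := by
                  rw [hele c hcm v hv.2, hci]
                  intro h7
                  exact hne (le_antisymm ((hbd v hv.2).2 j) h7)
                omega
              · rw [Finsupp.single_eq_of_ne hj]
                have h4 := hh j
                rwa [Finsupp.single_eq_of_ne hj] at h4
            funext j
            by_cases hj : j = i
            · subst hj
              rw [h5, hci]
            · rw [h3 j hj, hcj j hj]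
        · intro hh
          have := hh i
          rw [Finsupp.single_eq_same] at this
          omega
        · intro j
          by_cases hj : j = i
          · subst hj
            rw [Finsupp.single_eq_same]
          · rw [Finsupp.single_eq_of_ne hj]
            have h4 : e c j ≤ e lo j := by
              rw [hele c hcm lo hlo, hcj j hj]
            rw [helo j] at h4
            exact h4
      rcases hzo (Finsupp.single i (e c i - 1)) with h | h
      · exfalso
        rw [h1, h, zero_add] at h2
        exact (Finsupp.mem_support_iff.1 hcm) h2.symm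
      · exact h
    · intro a ha
      by_contra hcon
      have : cumZ N' a = 0 := hbig a (by omega)
      rw [ha] at this
      exact one_ne_zero this

end Pool.Agent.Q277.PA.ID
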