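import Pool.Agent.Q15.PA.Stm

/-!
# Project PA, job LAP: uniqueness of the transform
-/

set_option autoImplicit false

namespace Pool.Agent.Q277.PA.LAP

open Pool.Agent.Q15.PA MeasureTheory

variable {d : ℕ}

theorem int_mul {K : Set (V d)} (hK : IsCompact K) {f : V d → ℝ} (hf : Integrable f)
    (hfK : ∀ x, x ∉ K → f x = 0) {c : V d → ℝ} (hc : Continuous c) :
    Integrable (fun x => c x * f x) := by
  have h1 : IntegrableOn (fun x => c x * f x) K := hf.integrableOn.continuousOn_mul hc.continuousOn hK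
  rwa [integrableOn_iff_integrable_of_support_subset] at h1
  intro x hx
  by_contra hxK
  apply hx
  show c x * f x = 0
  rw [hfK x hxK, mul_zero]

/-- the continuous functions on `K` which are exponentials with nonnegative exponents -/
def Mo (K : Set (V d)) : Submonoid C(K, ℝ) where
  carrier := {a | ∃ ζ : V d, (∀ i, 0 ≤ ζ i) ∧ ∀ x : K, a x = Real.exp (ζ ⬝ᵥ (x : V d))}
  mul_mem' := by
    rintro a b ⟨ζ, hζ, ha⟩ ⟨η, hη, hb⟩
    refine ⟨ζ + η, fun i => add_nonneg (hζ i) (hη i), fun x => ?_⟩
    rw [ContinuousMap.mul_apply, ha, hb, ← Real.exp_add, add_dotProduct]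
  one_mem' := by
    refine ⟨0, fun i => le_rfl, fun x => ?_⟩
    rw [zero_dotProduct, Real.exp_zero]
    rfl

theorem cont_exp (ζ : V d) : Continuous fun x : V d => Real.exp (ζ ⬝ᵥ x) := by
  unfold dotProduct
  fun_prop

/-- uniqueness for functions with compact support -/
theorem ae_zero {K : Set (V d)} (hK : IsCompact K) {f : V d → ℝ} (hf : Integrable f)
    (hfK : ∀ x, x ∉ K → f x = 0)
    (h : ∀ ξ : V d, (∀ i, 0 < ξ i) → ∫ x, Real.exp (ξ ⬝ᵥ x) * f x = 0) : ∀ᵐ x, f x = 0 := by
  have hKc : CompactSpace K := isCompact_iff_compactSpace.1 hK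
  set e : V d → ℝ := fun x => Real.exp ((fun _ => (1 : ℝ)) ⬝ᵥ x) with he
  have hec : Continuous e := cont_exp _
  set F : V d → ℝ := fun x => e x * f x with hF
  have hFi : Integrable F := int_mul hK hf hfK hec
  have hFK : ∀ x, x ∉ K → F x = 0 := fun x hx => by rw [hF]; simp only; rw [hfK x hx, mul_zero]
  have hexp : ∀ ζ : V d, (∀ i, 0 ≤ ζ i) → ∫ x, Real.exp (ζ ⬝ᵥ x) * F x = 0 := by
    intro ζ hζ
    rw [← h (ζ + fun _ => 1) (fun i => by rw [Pi.add_apply]; linarith [hζ i])]
    refine integral_congr_ae (Filter.Eventually.of_forall fun x => ?_)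
    simp only [hF, he]
    rw [← mul_assoc, ← Real.exp_add, ← add_dotProduct]
  set A : Subalgebra ℝ C(K, ℝ) := Algebra.adjoin ℝ (Mo K : Set C(K, ℝ)) with hA
  have hAP : ∀ a ∈ A, ∃ P : V d → ℝ, Continuous P ∧ (∀ x : K, a x = P x) ∧ ∫ x, P x * F x = 0 := by
    intro a ha
    have ha' : a ∈ Submodule.span ℝ (Mo K : Set C(K, ℝ)) := by
      have h1 : a ∈ Subalgebra.toSubmodule A := ha
      rwa [hA, Algebra.adjoin_eq_span, Submonoid.closure_eq] at h1
    induction ha' using Submodule.span_induction with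
    | mem x hx =>
      obtain ⟨ζ, hζ, hx⟩ := hx
      exact ⟨_, cont_exp ζ, hx, hexp ζ hζ⟩
    | zero => exact ⟨fun _ => 0, continuous_const, fun x => rfl, by simp⟩
    | add a b _ _ iha ihb =>
      obtain ⟨P, hP, haP, hP0⟩ := iha (by
        have : a ∈ Subalgebra.toSubmodule A := by
          rw [hA, Algebra.adjoin_eq_span, Submonoid.closure_eq]; assumption
        exact this)
      obtain ⟨Q, hQ, hbQ, hQ0⟩ := ihb (by
        have : b ∈ Subalgebra.toSubmodule A := by
          rw [hA, Algebra.adjoin_eq_span, Submonoid.closure_eq]; assumption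
        exact this)
      refine ⟨fun x => P x + Q x, hP.add hQ, fun x => by rw [ContinuousMap.add_apply, haP, hbQ], ?_⟩
      simp only [add_mul]
      rw [integral_add (int_mul hK hFi hFK hP) (int_mul hK hFi hFK hQ), hP0, hQ0, add_zero]
    | smul c a _ iha =>
      obtain ⟨P, hP, haP, hP0⟩ := iha (by
        have : a ∈ Subalgebra.toSubmodule A := by
          rw [hA, Algebra.adjoin_eq_span, Submonoid.closure_eq]; assumption
        exact this)
      refine ⟨fun x => c * P x, continuous_const.mul hP,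
        fun x => by rw [ContinuousMap.smul_apply, haP, smul_eq_mul], ?_⟩
      simp only [mul_assoc]
      rw [integral_const_mul, hP0, mul_zero]
  have hsep : A.SeparatesPoints := by
    intro x y hxy
    have h1 : (x : V d) ≠ (y : V d) := fun h => hxy (Subtype.ext h)
    obtain ⟨i, hi⟩ := Function.ne_iff.1 h1
    set a : C(K, ℝ) := ⟨fun x => Real.exp ((Pi.single i (1 : ℝ) : V d) ⬝ᵥ (x : V d)),
      (cont_exp _).comp continuous_subtype_val⟩ with ha
    refine ⟨a, ⟨a, ?_, rfl⟩, ?_⟩
    · apply Algebra.subset_adjoin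
      refine ⟨Pi.single i 1, fun j => ?_, fun x => rfl⟩
      by_cases hj : j = i
      · subst hj; rw [Pi.single_eq_same]; exact zero_le_one
      · rw [Pi.single_eq_of_ne hj]
    · intro h2
      apply hi
      have h3 : Real.exp ((Pi.single i (1 : ℝ) : V d) ⬝ᵥ (x : V d)) =
          Real.exp ((Pi.single i (1 : ℝ) : V d) ⬝ᵥ (y : V d)) := h2
      rw [single_dotProduct, single_dotProduct, one_mul, one_mul] at h3
      exact Real.exp_injective h3
  have hF0 : ∀ᵐ x, F x = 0 := by
    refine ae_eq_zero_of_integral_contDiff_smul_eq_zero hFi.locallyIntegrable ?_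
    intro g hg _
    have hgc : Continuous g := hg.continuous
    simp only [smul_eq_mul]
    by_contra hne
    set I : ℝ := ∫ x, g x * F x with hI
    have hIpos : 0 < |I| := abs_pos.2 hne
    set B : ℝ := ∫ x, |F x| with hB
    have hB0 : 0 ≤ B := integral_nonneg fun x => abs_nonneg _
    set δ : ℝ := |I| / (B + 1) with hδ
    have hδ0 : 0 < δ := by positivity
    obtain ⟨a, ha⟩ := ContinuousMap.exists_mem_subalgebra_near_continuousMap_of_separatesPoints A hsep
      ⟨fun x : K => g x, hgc.comp continuous_subtype_val⟩ δ hδ0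
    obtain ⟨P, hP, haP, hP0⟩ := hAP a a.2
    have h1 : I = ∫ x, (g x - P x) * F x := by
      have e1 : (fun x => (g x - P x) * F x) = fun x => g x * F x - P x * F x := by
        funext x; ring
      rw [e1, integral_sub (int_mul hK hFi hFK hgc) (int_mul hK hFi hFK hP), hP0, sub_zero]
    have h2 : |I| ≤ ∫ x, δ * |F x| := by
      rw [h1, ← Real.norm_eq_abs]
      refine norm_integral_le_of_norm_le (hFi.abs.const_mul δ) (Filter.Eventually.of_forall fun x => ?_)
      rw [norm_mul, Real.norm_eq_abs, Real.norm_eq_abs]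
      by_cases hx : x ∈ K
      · refine mul_le_mul_of_nonneg_right ?_ (abs_nonneg _)
        have h3 := ContinuousMap.norm_coe_le_norm
          ((a : C(K, ℝ)) - ⟨fun x : K => g x, hgc.comp continuous_subtype_val⟩) ⟨x, hx⟩
        rw [ContinuousMap.sub_apply, haP, Real.norm_eq_abs] at h3
        rw [abs_sub_comm]
        exact h3.trans ha.le
      · rw [hFK x hx, abs_zero, mul_zero, mul_zero]
    rw [integral_const_mul, ← hB] at h2
    have h3 : δ * (B + 1) = |I| := by
      rw [hδ]; field_simp
    nlinarith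
  filter_upwards [hF0] with x hx
  have : e x ≠ 0 := (Real.exp_pos _).ne'
  exact (mul_eq_zero.1 hx).resolve_left this

/-! ### The boxes -/

open Classical in
/-- the indicator function of the box from `v` to `R` -/
noncomputable def bx (v : V d) (R : ℝ) (x : V d) : ℝ := if v ≤ x ∧ ∀ i, x i < R then 1 else 0

theorem exp_bx (v ξ : V d) (R : ℝ) (x : V d) :
    Real.exp (ξ ⬝ᵥ x) * bx v R x =
      ∏ i, (Set.Ico (v i) R).indicator (fun t => Real.exp (ξ i * t)) (x i) := by
  unfold bx
  by_cases h : v ≤ x ∧ ∀ i, x i < R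
  · rw [if_pos h, mul_one, dotProduct, Real.exp_sum]
    refine Finset.prod_congr rfl fun i _ => ?_
    rw [Set.indicator_of_mem]
    exact ⟨h.1 i, h.2 i⟩
  · rw [if_neg h, mul_zero]
    symm
    obtain ⟨i, hi⟩ : ∃ i, ¬ (v i ≤ x i ∧ x i < R) := by
      by_contra hcon
      push Not at hcon
      exact h ⟨fun i => (hcon i).1, fun i => (hcon i).2⟩
    refine Finset.prod_eq_zero (Finset.mem_univ i) ?_
    rw [Set.indicator_of_notMem]
    exact hi

theorem int_one (a R c : ℝ) (haR : a ≤ R) (hc : c ≠ 0) :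
    ∫ t, (Set.Ico a R).indicator (fun t => Real.exp (c * t)) t = (Real.exp (R * c) - Real.exp (a * c)) / c := by
  rw [integral_indicator measurableSet_Ico, integral_Ico_eq_integral_Ioc, ← intervalIntegral.integral_of_le haR,
    intervalIntegral.integral_comp_mul_left (f := Real.exp) hc, integral_exp, smul_eq_mul, mul_comm c R,
    mul_comm c a]
  field_simp

theorem integrable_bx (v ξ : V d) (R : ℝ) : Integrable fun x : V d => Real.exp (ξ ⬝ᵥ x) * bx v R x := by
  simp only [exp_bx]
  refine Integrable.fintype_prod (f := fun i => (Set.Ico (v i) R).indicator (fun t => Real.exp (ξ i * t)))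
    fun i => ?_
  rw [integrable_indicator_iff measurableSet_Ico]
  have h1 : IntegrableOn (fun t => Real.exp (ξ i * t)) (Set.Icc (v i) R) :=
    (Continuous.continuousOn (by fun_prop)).integrableOn_compact isCompact_Icc
  exact h1.mono_set Set.Ico_subset_Icc_self

theorem int_bx (v ξ : V d) (R : ℝ) (hv : ∀ i, v i ≤ R) (hξ : ∀ i, ξ i ≠ 0) :
    ∫ x : V d, Real.exp (ξ ⬝ᵥ x) * bx v R x =
      ∏ i, ((Real.exp (R * ξ i) - Real.exp (v i * ξ i)) / ξ i) := by
  simp only [exp_bx]
  rw [integral_fintype_prod_volume_eq_prod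
    (f := fun i => (Set.Ico (v i) R).indicator (fun t => Real.exp (ξ i * t)))]
  exact Finset.prod_congr rfl fun i _ => int_one _ _ _ (hv i) (hξ i)

/-- the algebraic identity -/
theorem expand (G : Set (V d)) (N : V d →₀ ℝ) (h : ∀ ξ, (∏ i, ξ i) * E G ξ = evc N ξ) (R : ℝ) (ξ : V d) :
    ∑ v ∈ N.support, N v * ∏ i, (Real.exp (v i * ξ i) - Real.exp (R * ξ i)) = evc N ξ := by
  classical
  have h1 : ∀ v : V d, ∏ i, (Real.exp (v i * ξ i) - Real.exp (R * ξ i)) =
      ∑ J ∈ (Finset.univ : Finset (Fin d)).powerset,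
        (∏ i ∈ J, Real.exp (v i * ξ i)) * ∏ i ∈ Finset.univ \ J, (-Real.exp (R * ξ i)) := by
    intro v
    rw [← Finset.prod_add]
    exact Finset.prod_congr rfl fun i _ => sub_eq_add_neg _ _
  simp only [h1, Finset.mul_sum]
  rw [Finset.sum_comm, Finset.sum_eq_single (Finset.univ : Finset (Fin d))]
  · rw [evc, Finsupp.sum]
    refine Finset.sum_congr rfl fun v _ => ?_
    rw [Finset.sdiff_self, Finset.prod_empty, mul_one, ← Real.exp_sum, dotProduct]
  · intro J _ hJ
    obtain ⟨k, hk⟩ : ∃ k, k ∉ J := by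
      by_contra hcon
      push Not at hcon
      exact hJ (Finset.eq_univ_iff_forall.2 hcon)
    set η : V d := fun i => if i ∈ J then ξ i else 0 with hη
    have h2 : evc N η = 0 := by
      rw [← h η, Finset.prod_eq_zero (Finset.mem_univ k), zero_mul]
      rw [hη]
      simp only
      rw [if_neg hk]
    have h3 : ∀ v : V d, ∏ i ∈ J, Real.exp (v i * ξ i) = Real.exp (v ⬝ᵥ η) := by
      intro v
      rw [← Real.exp_sum, dotProduct, hη]
      congr 1
      simp only [mul_ite, mul_zero]
      rw [Finset.sum_ite_mem, Finset.univ_inter]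
    simp only [h3]
    have h4 : ∑ v ∈ N.support, N v * (Real.exp (v ⬝ᵥ η) * ∏ i ∈ Finset.univ \ J, (-Real.exp (R * ξ i))) =
        evc N η * ∏ i ∈ Finset.univ \ J, (-Real.exp (R * ξ i)) := by
      rw [evc, Finsupp.sum, Finset.sum_mul]
      exact Finset.sum_congr rfl fun v _ => by ring
    rw [h4, h2, zero_mul]
  · intro hh
    exact absurd (Finset.mem_powerset_self _) hh

theorem lap : S_LAP := by
  classical
  intro d G N hG h
  obtain ⟨R0, hR0⟩ : ∃ R0 : ℝ, (∀ x ∈ G, ∀ i, |x i| ≤ R0) ∧ ∀ v ∈ N.support, ∀ i, |v i| ≤ R0 := by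
    obtain ⟨r, hr⟩ := (hG.isBounded.union (Finset.finite_toSet N.support).isBounded).subset_closedBall (0 : V d)
    refine ⟨r, fun x hx i => ?_, fun v hv i => ?_⟩
    · have h1 := hr (Or.inl hx)
      rw [mem_closedBall_zero_iff] at h1
      exact (norm_le_pi_norm x i).trans h1
    · have h1 := hr (Or.inr (Finset.mem_coe.2 hv))
      rw [mem_closedBall_zero_iff] at h1
      exact (norm_le_pi_norm v i).trans h1
  -- the statement for one bound
  have key : ∀ R : ℝ, R0 ≤ R → ∀ᵐ x, G.indicator (fun _ => (1 : ℝ)) x =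
      (-1) ^ d * ∑ v ∈ N.support, N v * bx v R x := by
    intro R hR
    set K : Set (V d) := Set.Icc (fun _ => -R) (fun _ => R) with hK
    have hKc : IsCompact K := isCompact_Icc
    set f : V d → ℝ := fun x => G.indicator (fun _ => (1 : ℝ)) x -
      (-1) ^ d * ∑ v ∈ N.support, N v * bx v R x with hf
    have hGm : MeasurableSet G := hG.measurableSet
    have hint : ∀ ξ : V d, Integrable fun x => Real.exp (ξ ⬝ᵥ x) * G.indicator (fun _ => (1 : ℝ)) x := by
      intro ξ
      have e1 : (fun x => Real.exp (ξ ⬝ᵥ x) * G.indicator (fun _ => (1 : ℝ)) x) =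
          G.indicator fun x => Real.exp (ξ ⬝ᵥ x) := by
        funext x
        by_cases hx : x ∈ G
        · rw [Set.indicator_of_mem hx, Set.indicator_of_mem hx, mul_one]
        · rw [Set.indicator_of_notMem hx, Set.indicator_of_notMem hx, mul_zero]
      rw [e1, integrable_indicator_iff hGm]
      exact (cont_exp ξ).continuousOn.integrableOn_compact hG
    have hint2 : ∀ ξ : V d, Integrable fun x => (-1 : ℝ) ^ d * ∑ v ∈ N.support,
        N v * (Real.exp (ξ ⬝ᵥ x) * bx v R x) := by
      intro ξ
      refine Integrable.const_mul ?_ _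
      exact integrable_finsetSum _ fun v _ => (integrable_bx v ξ R).const_mul _
    have hef : ∀ (ξ : V d) (x : V d), Real.exp (ξ ⬝ᵥ x) * f x =
        Real.exp (ξ ⬝ᵥ x) * G.indicator (fun _ => (1 : ℝ)) x - (-1 : ℝ) ^ d * ∑ v ∈ N.support,
        N v * (Real.exp (ξ ⬝ᵥ x) * bx v R x) := by
      intro ξ x
      rw [hf]
      simp only
      rw [mul_sub, mul_left_comm, Finset.mul_sum]
      refine congrArg (fun t => Real.exp (ξ ⬝ᵥ x) * G.indicator (fun _ => (1 : ℝ)) x - (-1 : ℝ) ^ d * t) ?_
      exact Finset.sum_congr rfl fun v _ => by ring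
    have hfi : Integrable f := by
      have h1 := (hint 0).sub (hint2 0)
      refine h1.congr (Filter.Eventually.of_forall fun x => ?_)
      have h2 := hef 0 x
      rw [zero_dotProduct, Real.exp_zero, one_mul] at h2
      rw [h2]
      simp only [Pi.sub_apply, zero_dotProduct, Real.exp_zero]
    have hfK : ∀ x, x ∉ K → f x = 0 := by
      intro x hx
      have h1 : x ∉ G := by
        intro hxG
        apply hx
        constructor
        · intro i
          have := (abs_le.1 (hR0.1 x hxG i)).1
          show -R ≤ x i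
          linarith
        · intro i
          have := (abs_le.1 (hR0.1 x hxG i)).2
          show x i ≤ R
          linarith
      have h2 : ∀ v ∈ N.support, bx v R x = 0 := by
        intro v hv
        unfold bx
        rw [if_neg]
        rintro ⟨h3, h4⟩
        apply hx
        constructor
        · intro i
          have h5 := (abs_le.1 (hR0.2 v hv i)).1
          have h6 := h3 i
          show -R ≤ x i
          linarith
        · intro i
          exact (h4 i).le
      rw [hf]
      simp only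
      rw [Set.indicator_of_notMem h1, Finset.sum_eq_zero, mul_zero, sub_zero]
      intro v hv
      rw [h2 v hv, mul_zero]
    have hz : ∀ ξ : V d, (∀ i, 0 < ξ i) → ∫ x, Real.exp (ξ ⬝ᵥ x) * f x = 0 := by
      intro ξ hξ
      have hξ0 : ∀ i, ξ i ≠ 0 := fun i => (hξ i).ne'
      simp only [hef]
      rw [integral_sub (hint ξ) (hint2 ξ), integral_const_mul,
        integral_finsetSum _ (fun v _ => (integrable_bx v ξ R).const_mul _)]
      have e1 : ∫ x, Real.exp (ξ ⬝ᵥ x) * G.indicator (fun _ => (1 : ℝ)) x = E G ξ := by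
        rw [E, ← integral_indicator hGm]
        refine integral_congr_ae (Filter.Eventually.of_forall fun x => ?_)
        by_cases hx : x ∈ G
        · simp only [Set.indicator_of_mem hx, mul_one]
        · simp only [Set.indicator_of_notMem hx, mul_zero]
      have e2 : ∀ v ∈ N.support, ∫ x : V d, N v * (Real.exp (ξ ⬝ᵥ x) * bx v R x) =
          N v * ∏ i, ((Real.exp (R * ξ i) - Real.exp (v i * ξ i)) / ξ i) := by
        intro v hv
        rw [integral_const_mul, int_bx v ξ R (fun i => (le_abs_self _).trans ((hR0.2 v hv i).trans hR)) hξ0]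
      rw [e1, Finset.sum_congr rfl e2]
      have hprod : (∏ i, ξ i) ≠ 0 := Finset.prod_ne_zero_iff.2 fun i _ => hξ0 i
      have h1 : (∏ i, ξ i) * (E G ξ - (-1 : ℝ) ^ d * ∑ v ∈ N.support,
          N v * ∏ i, ((Real.exp (R * ξ i) - Real.exp (v i * ξ i)) / ξ i)) = 0 := by
        rw [mul_sub, h ξ, ← expand G N h R ξ, mul_left_comm, Finset.mul_sum, Finset.mul_sum, ← Finset.sum_sub_distrib]
        refine Finset.sum_eq_zero fun v _ => ?_
        rw [Finset.prod_div_distrib]
        have e3 : ∏ i, (Real.exp (v i * ξ i) - Real.exp (R * ξ i)) =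
            (-1 : ℝ) ^ d * ∏ i, (Real.exp (R * ξ i) - Real.exp (v i * ξ i)) := by
          have e4 : (-1 : ℝ) ^ d = ∏ _i : Fin d, (-1 : ℝ) := by simp
          rw [e4, ← Finset.prod_mul_distrib]
          exact Finset.prod_congr rfl fun i _ => by ring
        rw [e3]
        field_simp
        ring
      exact (mul_eq_zero.1 h1).resolve_left hprod
    filter_upwards [ae_zero hKc hfi hfK hz] with x hx
    exact sub_eq_zero.1 hx
  have key2 : ∀ᵐ x, ∀ n : ℕ, R0 ≤ n → G.indicator (fun _ => (1 : ℝ)) x =
      (-1) ^ d * ∑ v ∈ N.support, N v * bx v n x := by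
    rw [ae_all_iff]
    intro n
    by_cases hn : R0 ≤ n
    · filter_upwards [key n hn] with x hx _
      exact hx
    · exact Filter.Eventually.of_forall fun x h' => absurd h' hn
  filter_upwards [key2] with x hx
  obtain ⟨n, hn⟩ := exists_nat_gt (max R0 (∑ i, |x i|))
  rw [hx n ((le_max_left _ _).trans hn.le)]
  refine congrArg (fun t => (-1 : ℝ) ^ d * t) ?_
  rw [cum, Finsupp.sum]
  refine Finset.sum_congr rfl fun v _ => ?_
  have h1 : ∀ i, x i < n := by
    intro i
    refine lt_of_le_of_lt ?_ hn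
    refine le_trans ?_ (le_max_right _ _)
    exact (le_abs_self _).trans (Finset.single_le_sum (f := fun i => |x i|) (fun _ _ => abs_nonneg _)
      (Finset.mem_univ i))
  unfold bx
  by_cases hvx : v ≤ x
  · rw [if_pos ⟨hvx, h1⟩, if_pos hvx, mul_one]
  · rw [if_neg (fun hh => hvx hh.1), if_neg hvx, mul_zero]

end Pool.Agent.Q277.PA.LAP
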