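import Pool.Agent.Q15.PA.Stm

/-!
# Project PA, job TILE: the set of cells tiles `ℕ^d`
-/

set_option autoImplicit false

namespace Pool.Agent.Q277.PA.TILE

open Pool.Agent.Q15.PA MvPowerSeries

variable {d : ℕ}

/-- the powers of the variables -/
noncomputable def am (m : Fin d → ℕ) (i : Fin d) : MvPowerSeries (Fin d) ℝ := X i ^ m i

theorem hasSubst_am (m : Fin d → ℕ) (hm : ∀ i, 2 ≤ m i) : HasSubst (S := ℝ) (am m) := by
  refine hasSubst_of_constantCoeff_zero fun s => ?_
  have : m s ≠ 0 := by have := hm s; omega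
  rw [am, map_pow, constantCoeff_X, zero_pow this]

/-- the exponent multiplied by `m` -/
noncomputable def me (m : Fin d → ℕ) (e : Fin d →₀ ℕ) : Fin d →₀ ℕ :=
  Finsupp.equivFunOnFinite.symm (fun i => m i * e i)

theorem me_apply (m : Fin d → ℕ) (e : Fin d →₀ ℕ) (i : Fin d) : me m e i = m i * e i := rfl

theorem prod_am (m : Fin d → ℕ) (e : Fin d →₀ ℕ) :
    (e.prod fun s k => (am m s) ^ k) = monomial (me m e) (1 : ℝ) := by
  rw [monomial_one_eq, Finsupp.prod_fintype _ _ (fun i => by rw [pow_zero]),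
    Finsupp.prod_fintype _ _ (fun i => by rw [pow_zero])]
  refine Finset.prod_congr rfl fun i _ => ?_
  rw [am, ← pow_mul, me_apply]

theorem me_inj (m : Fin d → ℕ) (hm : ∀ i, 2 ≤ m i) {e e' : Fin d →₀ ℕ} (h : me m e = me m e') : e = e' := by
  ext i
  have h1 := DFunLike.congr_fun h i
  rw [me_apply, me_apply] at h1
  exact Nat.eq_of_mul_eq_mul_left (by have := hm i; omega) h1

/-- the total degree of an exponent -/
def dg (x : Fin d →₀ ℕ) : ℕ := ∑ i, x i

theorem dg_me (m : Fin d → ℕ) (hm : ∀ i, 2 ≤ m i) (e : Fin d →₀ ℕ) : 2 * dg e ≤ dg (me m e) := by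
  rw [dg, dg, Finset.mul_sum]
  exact Finset.sum_le_sum fun i _ => by rw [me_apply]; exact Nat.mul_le_mul_right _ (hm i)

theorem dg_add (x y : Fin d →₀ ℕ) : dg (x + y) = dg x + dg y := by
  rw [dg, dg, dg, ← Finset.sum_add_distrib]
  rfl

theorem dg_zero {x : Fin d →₀ ℕ} (h : dg x = 0) : x = 0 := by
  ext i
  have := (Finset.sum_eq_zero_iff.1 h) i (Finset.mem_univ i)
  simpa using this

/-- a coefficient of the substituted series is a coefficient of the series, or zero -/
theorem coeff_subst_am (m : Fin d → ℕ) (hm : ∀ i, 2 ≤ m i) (I : MvPowerSeries (Fin d) ℝ) (x : Fin d →₀ ℕ) :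
    (∃ e, me m e = x ∧ coeff x (subst (am m) I) = coeff e I) ∨ coeff x (subst (am m) I) = 0 := by
  classical
  rw [coeff_subst (hasSubst_am m hm)]
  by_cases h : ∃ e, me m e = x
  · left
    obtain ⟨e, he⟩ := h
    refine ⟨e, he, ?_⟩
    rw [finsum_eq_single _ e]
    · rw [prod_am, he, coeff_monomial_same, smul_eq_mul, mul_one]
    · intro e' hne
      rw [prod_am, coeff_monomial_ne, smul_zero]
      intro h'
      exact hne (me_inj m hm (h'.symm.trans he.symm))
  · right
    refine finsum_eq_zero_of_forall_eq_zero fun e => ?_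
    rw [prod_am, coeff_monomial_ne, smul_zero]
    intro h'
    exact h ⟨e, h'.symm⟩

/-- the coefficients of the inverse are natural numbers -/
theorem inv_nat (N T : MvPolynomial (Fin d) ℝ) (m : Fin d → ℕ) (h : ZData N T m) (x : Fin d →₀ ℕ) :
    ∃ k : ℕ, coeff x ((N : MvPowerSeries (Fin d) ℝ)⁻¹) = k := by
  classical
  have hc : constantCoeff (N : MvPowerSeries (Fin d) ℝ) ≠ 0 := by
    rw [← coeff_zero_eq_constantCoeff_apply, MvPolynomial.coeff_coe, h.one]
    exact one_ne_zero
  have hs := hasSubst_am m h.two_le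
  set I : MvPowerSeries (Fin d) ℝ := (N : MvPowerSeries (Fin d) ℝ)⁻¹ with hI
  have hNI : (N : MvPowerSeries (Fin d) ℝ) * I = 1 := MvPowerSeries.mul_inv_cancel _ hc
  have h1 : (T : MvPowerSeries (Fin d) ℝ) * (N : MvPowerSeries (Fin d) ℝ) =
      subst (am m) (N : MvPowerSeries (Fin d) ℝ) := by
    rw [subst_coe, ← MvPolynomial.coe_mul, h.eq]
    have h2 : (MvPolynomial.aeval (am m)) N =
        MvPolynomial.coeToMvPowerSeries.algHom ℝ (MvPolynomial.aeval
          (fun i => (MvPolynomial.X i : MvPolynomial (Fin d) ℝ) ^ m i) N) := by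
      rw [← AlgHom.comp_apply, MvPolynomial.comp_aeval]
      refine congrArg (fun f => MvPolynomial.aeval f N) ?_
      funext i
      rw [map_pow]
      simp [am]
    rw [h2]
    simp
  have h3 : I = (T : MvPowerSeries (Fin d) ℝ) * subst (am m) I := by
    symm
    rw [hI, MvPowerSeries.eq_inv_iff_mul_eq_one hc, ← hI]
    calc (T : MvPowerSeries (Fin d) ℝ) * subst (am m) I * (N : MvPowerSeries (Fin d) ℝ)
        = ((T : MvPowerSeries (Fin d) ℝ) * (N : MvPowerSeries (Fin d) ℝ)) * subst (am m) I := by ring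
      _ = subst (am m) ((N : MvPowerSeries (Fin d) ℝ) * I) := by rw [h1, subst_mul hs]
      _ = 1 := by rw [hNI, ← substAlgHom_apply hs, map_one]
  have key : ∀ n : ℕ, ∀ x : Fin d →₀ ℕ, dg x = n → ∃ k : ℕ, coeff x I = k := by
    intro n
    induction n using Nat.strong_induction_on with
    | _ n ih =>
      intro x hx
      by_cases hx0 : x = 0
      · refine ⟨1, ?_⟩
        have h4 := congrArg constantCoeff hNI
        rw [map_mul, map_one, ← coeff_zero_eq_constantCoeff_apply, MvPolynomial.coeff_coe, h.one, one_mul] at h4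
        rw [hx0, coeff_zero_eq_constantCoeff_apply, h4, Nat.cast_one]
      · have hn : 0 < n := by
          rw [← hx]
          exact Nat.pos_of_ne_zero fun h0 => hx0 (dg_zero h0)
        rw [h3, coeff_mul]
        have hterm : ∀ q ∈ Finset.HasAntidiagonal.antidiagonal x, ∃ k : ℕ,
            coeff q.1 (T : MvPowerSeries (Fin d) ℝ) * coeff q.2 (subst (am m) I) = k := by
          intro q hq
          rw [Finset.HasAntidiagonal.mem_antidiagonal] at hq
          rw [MvPolynomial.coeff_coe]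
          obtain ⟨k1, hk1⟩ := h.nat q.1
          have hq2 : dg q.2 ≤ n := by rw [← hx, ← hq, dg_add]; omega
          rcases coeff_subst_am m h.two_le I q.2 with ⟨e, he, hce⟩ | h0
          · have hde : dg e < n := by
              have := dg_me m h.two_le e
              rw [he] at this
              omega
            obtain ⟨k2, hk2⟩ := ih (dg e) hde e rfl
            exact ⟨k1 * k2, by rw [hk1, hce, hk2]; push_cast; ring⟩
          · exact ⟨0, by rw [h0, mul_zero, Nat.cast_zero]⟩
        choose! f hf using hterm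
        refine ⟨∑ q ∈ Finset.HasAntidiagonal.antidiagonal x, f q, ?_⟩
        push_cast
        exact Finset.sum_congr rfl fun q hq => hf q hq
  exact key _ x rfl

/-- the series with all coefficients `1` -/
noncomputable def JJ (d : ℕ) : MvPowerSeries (Fin d) ℝ := fun _ => 1

theorem coeff_JJ (x : Fin d →₀ ℕ) : coeff x (JJ d) = 1 := rfl

theorem coeff_mul_JJ (N : MvPolynomial (Fin d) ℝ) (a : Fin d →₀ ℕ) :
    coeff a ((N : MvPowerSeries (Fin d) ℝ) * JJ d) = cumZ N a := by
  classical
  rw [coeff_mul, cumZ]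
  refine Finset.sum_nbij' (fun q => q.1) (fun b => (b, a - b)) ?_ ?_ ?_ ?_ ?_
  · intro q hq
    rw [Finset.HasAntidiagonal.mem_antidiagonal] at hq
    rw [Finset.mem_Iic, ← hq]
    exact le_self_add
  · intro b hb
    rw [Finset.mem_Iic] at hb
    rw [Finset.HasAntidiagonal.mem_antidiagonal]
    exact add_tsub_cancel_of_le hb
  · intro q hq
    rw [Finset.HasAntidiagonal.mem_antidiagonal] at hq
    refine Prod.ext rfl ?_
    simp only
    rw [← hq, add_tsub_cancel_left]
  · intro b _
    rfl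
  · intro q _
    rw [coeff_JJ, mul_one, MvPolynomial.coeff_coe]

theorem tile : S_TILE := by
  classical
  intro d N T m h
  have hc : constantCoeff (N : MvPowerSeries (Fin d) ℝ) ≠ 0 := by
    rw [← coeff_zero_eq_constantCoeff_apply, MvPolynomial.coeff_coe, h.one]
    exact one_ne_zero
  set I : MvPowerSeries (Fin d) ℝ := (N : MvPowerSeries (Fin d) ℝ)⁻¹ with hI
  have hNI : (N : MvPowerSeries (Fin d) ℝ) * I = 1 := MvPowerSeries.mul_inv_cancel _ hc
  choose k hk using fun x => inv_nat N T m h x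
  have hcum : ∀ a, ∃ q : ℕ, cumZ N a = q ∧ q ≤ 1 := by
    intro a
    rcases h.zo a with h0 | h1
    · exact ⟨0, by rw [h0, Nat.cast_zero], by omega⟩
    · exact ⟨1, by rw [h1, Nat.cast_one], le_rfl⟩
  choose c hc1 hc2 using hcum
  have hsum : ∀ x : Fin d →₀ ℕ, ∑ q ∈ Finset.HasAntidiagonal.antidiagonal x, c q.1 * k q.2 = 1 := by
    intro x
    have h1 : ((N : MvPowerSeries (Fin d) ℝ) * JJ d) * I = JJ d := by
      calc ((N : MvPowerSeries (Fin d) ℝ) * JJ d) * I = ((N : MvPowerSeries (Fin d) ℝ) * I) * JJ d := by ring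
        _ = JJ d := by rw [hNI, one_mul]
    have h2 := congrArg (coeff x) h1
    rw [coeff_mul, coeff_JJ] at h2
    have h3 : ((∑ q ∈ Finset.HasAntidiagonal.antidiagonal x, c q.1 * k q.2 : ℕ) : ℝ) = 1 := by
      rw [← h2]
      push_cast
      refine Finset.sum_congr rfl fun q _ => ?_
      rw [coeff_mul_JJ, hc1, hk]
    exact_mod_cast h3
  refine ⟨{b | k b = 1}, fun x => ?_⟩
  have hx := hsum x
  -- a nonzero term
  obtain ⟨q, hq, hq0⟩ : ∃ q ∈ Finset.HasAntidiagonal.antidiagonal x, c q.1 * k q.2 ≠ 0 := by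
    by_contra hcon
    push Not at hcon
    rw [Finset.sum_eq_zero hcon] at hx
    exact zero_ne_one hx
  have hle : c q.1 * k q.2 ≤ 1 := by
    rw [← hx]
    exact Finset.single_le_sum (f := fun q : (Fin d →₀ ℕ) × (Fin d →₀ ℕ) => c q.1 * k q.2)
      (fun _ _ => Nat.zero_le _) hq
  have hq1 : c q.1 * k q.2 = 1 := by
    have := Nat.pos_of_ne_zero hq0
    omega
  have hcq : c q.1 = 1 := Nat.eq_one_of_mul_eq_one_right hq1
  have hkq : k q.2 = 1 := Nat.eq_one_of_mul_eq_one_left hq1
  refine ⟨q, ⟨?_, hkq, Finset.HasAntidiagonal.mem_antidiagonal.1 hq⟩, ?_⟩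
  · rw [Set.mem_ofPred_eq, hc1, hcq, Nat.cast_one]
  · rintro q' ⟨ha, hb, hab⟩
    by_contra hne
    rw [Set.mem_ofPred_eq] at ha hb
    rw [hc1] at ha
    have hc' : c q'.1 = 1 := by exact_mod_cast ha
    have hq' : q' ∈ Finset.HasAntidiagonal.antidiagonal x := Finset.HasAntidiagonal.mem_antidiagonal.2 hab
    have h2 : ∑ r ∈ ({q, q'} : Finset ((Fin d →₀ ℕ) × (Fin d →₀ ℕ))), c r.1 * k r.2 ≤
        ∑ r ∈ Finset.HasAntidiagonal.antidiagonal x, c r.1 * k r.2 := by
      refine Finset.sum_le_sum_of_subset ?_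
      intro r hr
      rcases Finset.mem_insert.1 hr with rfl | hr
      · exact hq
      · rw [Finset.mem_singleton] at hr
        rw [hr]
        exact hq'
    rw [Finset.sum_pair (Ne.symm hne), hx, hcq, hkq, hc', hb] at h2
    omega

end Pool.Agent.Q277.PA.TILE
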